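import Mathlib

namespace Pool.Agent.H.MP_edc851_co

open Finset PowerSeries

theorem exists_phi : ∃ φ : ℤ⟦X⟧ →+* ℤ⟦X⟧, ∃ i : ℤ⟦X⟧, i * (1 + X) = 1 ∧ φ X = X * i := by
  have h : (1 + X : ℤ⟦X⟧) * invOfUnit (1 + X) 1 = 1 := mul_invOfUnit _ _ (by simp)
  have ha : HasSubst (X * invOfUnit (1 + X) 1 : ℤ⟦X⟧) :=
    HasSubst.of_constantCoeff_zero' (by simp)
  exact ⟨(substAlgHom (R := ℤ) ha).toRingHom, _, by rw [mul_comm, h], substAlgHom_X ha⟩

theorem coeff_pow1 (k j : ℕ) : coeff j ((1 + X : ℤ⟦X⟧) ^ k) = k.choose j := by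
  have : ((1 + X : ℤ⟦X⟧) ^ k) = (((1 + Polynomial.X : Polynomial ℤ) ^ k : Polynomial ℤ) : ℤ⟦X⟧) := by
    simp
  rw [this, Polynomial.coeff_coe, Polynomial.coeff_one_add_X_pow]

/-- truncation -/
noncomputable def T (L : ℕ) (F : ℤ⟦X⟧) : ℤ⟦X⟧ := mk fun a => if a ≤ L then coeff a F else 0

theorem T_eq (L : ℕ) (F : ℤ⟦X⟧) :
    T L F = ∑ a ∈ range (L + 1), ((coeff a F : ℤ) : ℤ⟦X⟧) * X ^ a := by
  ext j
  have : ∀ z : ℤ, (z : ℤ⟦X⟧) = C z := fun z => by simp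
  simp only [T, coeff_mk, map_sum, this, coeff_C_mul, coeff_X_pow, mul_ite, mul_one, mul_zero,
    sum_ite_eq, mem_range, Nat.lt_succ_iff]

variable {φ : ℤ⟦X⟧ →+* ℤ⟦X⟧} {i : ℤ⟦X⟧}

theorem H_eq (hi : i * (1 + X) = 1) (hφ : φ X = X * i) (L : ℕ) (F : ℤ⟦X⟧) :
    (1 + X) ^ L * φ (T L F)
      = ∑ a ∈ range (L + 1), C (coeff a F) * (X ^ a * (1 + X) ^ (L - a)) := by
  rw [T_eq, map_sum, mul_sum]
  refine sum_congr rfl fun a ha => ?_
  have ha' : a ≤ L := Nat.lt_succ_iff.1 (mem_range.1 ha)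
  rw [map_mul, map_intCast, map_pow, hφ, mul_pow, ← Nat.sub_add_cancel ha', pow_add,
    Nat.add_sub_cancel]
  have : i ^ a * (1 + X) ^ a = 1 := by rw [← mul_pow, hi, one_pow]
  have e : C (coeff a F) = ((coeff a F : ℤ) : ℤ⟦X⟧) := by simp
  rw [e]
  linear_combination (((coeff a F : ℤ) : ℤ⟦X⟧) * X ^ a * (1 + X) ^ (L - a)) * this

theorem T_rel (hi : i * (1 + X) = 1) (hφ : φ X = X * i) {L : ℕ} {F G : ℤ⟦X⟧}
    (h : G = (1 + X) ^ L * φ F) : T L G = (1 + X) ^ L * φ (T L F) := by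
  ext j
  rw [T, coeff_mk]
  split_ifs with hj
  · have h1 : X ^ (L + 1) ∣ F - T L F := by
      rw [X_pow_dvd_iff]
      intro m hm
      simp [T, Nat.lt_succ_iff.1 hm]
    obtain ⟨K, hK⟩ := h1
    have h2 : X ^ (L + 1) ∣ G - (1 + X) ^ L * φ (T L F) := by
      rw [h, ← mul_sub, ← map_sub, hK, map_mul, map_pow, hφ, mul_pow, mul_assoc]
      exact Dvd.dvd.mul_left (dvd_mul_right _ _) _
    have := X_pow_dvd_iff.1 h2 j (by omega)
    rwa [map_sub, sub_eq_zero] at this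
  · rw [H_eq hi hφ, map_sum]
    refine (sum_eq_zero fun a ha => ?_).symm
    have ha' : a ≤ L := Nat.lt_succ_iff.1 (mem_range.1 ha)
    rw [coeff_C_mul, coeff_X_pow_mul', if_pos (by omega), coeff_pow1,
      Nat.choose_eq_zero_of_lt (by omega)]
    simp

theorem top_coeff (hi : i * (1 + X) = 1) (hφ : φ X = X * i) (L : ℕ) (F : ℤ⟦X⟧) :
    coeff L ((1 + X) ^ L * φ (T L F)) = ∑ a ∈ range (L + 1), coeff a F := by
  rw [H_eq hi hφ, map_sum]
  refine sum_congr rfl fun a ha => ?_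
  have ha' : a ≤ L := Nat.lt_succ_iff.1 (mem_range.1 ha)
  rw [coeff_C_mul, coeff_X_pow_mul', if_pos ha', coeff_pow1]
  simp

variable {ι : Type*} [DecidableEq ι]

/-- weighted constrained generating series -/
noncomputable def S (m : ℕ) (w : ℕ → ℤ) (E : Finset ι) (𝓛 : Finset (Finset ι)) : ℤ⟦X⟧ :=
  mk fun c => ∑ a ∈ piAntidiag E c with ∀ D ∈ 𝓛, ∑ i ∈ D, a i ≤ m * D.card, ∏ i ∈ E, w (a i)

theorem S_trunc (m : ℕ) (w : ℕ → ℤ) (E : Finset ι) (𝓛 : Finset (Finset ι)) :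
    S m w E (insert E 𝓛) = T (m * E.card) (S m w E 𝓛) := by
  ext c
  simp only [S, T, coeff_mk]
  split_ifs with h
  · refine sum_congr (filter_congr fun a ha => ?_) fun _ _ => rfl
    have : ∑ i ∈ E, a i = c := (mem_piAntidiag.1 ha).1
    simp only [forall_mem_insert, and_iff_right_iff_imp]
    intro _
    omega
  · refine sum_eq_zero fun a ha => ?_
    obtain ⟨h1, h2⟩ := mem_filter.1 ha
    have : ∑ i ∈ E, a i = c := (mem_piAntidiag.1 h1).1
    have := h2 E (mem_insert_self _ _)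
    omega

theorem S_single (m : ℕ) (w : ℕ → ℤ) (x : ι) (𝓛 : Finset (Finset ι)) (h : ∀ D ∈ 𝓛, D = ∅) :
    S m w {x} 𝓛 = mk w := by
  ext c
  simp only [S, coeff_mk]
  rw [filter_true_of_mem (fun a _ D hD => by simp [h D hD])]
  have : piAntidiag {x} c = {Pi.single x c} := by
    ext a
    simp only [mem_piAntidiag, sum_singleton, mem_singleton]
    constructor
    · rintro ⟨h1, h2⟩
      funext y
      by_cases hy : y = x
      · simp [hy, h1]
      · simp only [Pi.single_eq_of_ne hy]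
        exact by_contra fun h => hy (h2 y h)
    · rintro rfl
      exact ⟨by simp, fun y hy => by_contra fun h => hy (Pi.single_eq_of_ne h _)⟩
  simp [this]

theorem S_empty (m : ℕ) (w : ℕ → ℤ) (𝓛 : Finset (Finset ι)) (h : ∀ D ∈ 𝓛, D = ∅) :
    S m w ∅ 𝓛 = 1 := by
  ext c
  simp only [S, coeff_mk]
  rw [filter_true_of_mem (fun a _ D hD => by simp [h D hD])]
  rw [coeff_one]
  split_ifs with hc
  · simp [hc]
  · simp [piAntidiag_empty_of_ne_zero hc]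

theorem S_mul (m : ℕ) (w : ℕ → ℤ) {E₁ E₂ : Finset ι} (hE : Disjoint E₁ E₂)
    {𝓛₁ 𝓛₂ : Finset (Finset ι)} (h1 : ∀ D ∈ 𝓛₁, D ⊆ E₁) (h2 : ∀ D ∈ 𝓛₂, D ⊆ E₂) :
    S m w (E₁ ∪ E₂) (𝓛₁ ∪ 𝓛₂) = S m w E₁ 𝓛₁ * S m w E₂ 𝓛₂ := by
  ext c
  simp only [S, coeff_mk, coeff_mul, sum_mul_sum]
  simp only [← sum_product']
  rw [sum_sigma']
  have d1 : ∀ {x}, x ∈ E₁ → x ∉ E₂ := fun h => disjoint_left.1 hE h
  have d2 : ∀ {x}, x ∈ E₂ → x ∉ E₁ := fun h => disjoint_right.1 hE h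
  have z : ∀ {E : Finset ι} {k : ℕ} {a : ι → ℕ}, a ∈ piAntidiag E k → ∀ x ∉ E, a x = 0 :=
    fun h x hx => by_contra fun h0 => hx ((mem_piAntidiag.1 h).2 x h0)
  symm
  refine sum_bij' (fun p _ => p.2.1 + p.2.2)
    (fun a _ => ⟨(∑ x ∈ E₁, a x, ∑ x ∈ E₂, a x),
      (fun x => if x ∈ E₁ then a x else 0, fun x => if x ∈ E₂ then a x else 0)⟩) ?_ ?_ ?_ ?_ ?_
  · rintro ⟨⟨c1, c2⟩, a1, a2⟩ hp
    simp only [mem_sigma, HasAntidiagonal.mem_antidiagonal, mem_product, mem_filter] at hp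
    obtain ⟨hc, ⟨p1, q1⟩, p2, q2⟩ := hp
    have s1 : ∀ D ⊆ E₁, ∑ x ∈ D, (a1 + a2) x = ∑ x ∈ D, a1 x := fun D hD =>
      sum_congr rfl fun x hx => by simp [z p2 x (d1 (hD hx))]
    have s2 : ∀ D ⊆ E₂, ∑ x ∈ D, (a1 + a2) x = ∑ x ∈ D, a2 x := fun D hD =>
      sum_congr rfl fun x hx => by simp [z p1 x (d2 (hD hx))]
    refine mem_filter.2 ⟨mem_piAntidiag.2 ⟨?_, fun x hx => ?_⟩, fun D hD => ?_⟩
    · rw [sum_union hE, s1 _ subset_rfl, s2 _ subset_rfl, (mem_piAntidiag.1 p1).1,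
        (mem_piAntidiag.1 p2).1, hc]
    · by_contra h
      rw [mem_union, not_or] at h
      exact hx (by simp [z p1 x h.1, z p2 x h.2])
    · rcases mem_union.1 hD with h | h
      · rw [s1 D (h1 D h)]; exact q1 D h
      · rw [s2 D (h2 D h)]; exact q2 D h
  · intro a ha
    obtain ⟨p, q⟩ := mem_filter.1 ha
    simp only [mem_sigma, HasAntidiagonal.mem_antidiagonal, mem_product, mem_filter, mem_piAntidiag]
    refine ⟨by rw [← sum_union hE, (mem_piAntidiag.1 p).1],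
      ⟨⟨sum_congr rfl fun x hx => if_pos hx, fun x hx => by_contra fun h => hx (if_neg h)⟩, ?_⟩,
      ⟨sum_congr rfl fun x hx => if_pos hx, fun x hx => by_contra fun h => hx (if_neg h)⟩, ?_⟩
    · intro D hD
      rw [sum_congr rfl fun x hx => if_pos (h1 D hD hx)]
      exact q D (mem_union_left _ hD)
    · intro D hD
      rw [sum_congr rfl fun x hx => if_pos (h2 D hD hx)]
      exact q D (mem_union_right _ hD)
  · rintro ⟨⟨c1, c2⟩, a1, a2⟩ hp
    simp only [mem_sigma, HasAntidiagonal.mem_antidiagonal, mem_product, mem_filter] at hp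
    obtain ⟨hc, ⟨p1, q1⟩, p2, q2⟩ := hp
    have s1 : ∑ x ∈ E₁, (a1 + a2) x = c1 := by
      rw [← (mem_piAntidiag.1 p1).1]
      exact sum_congr rfl fun x hx => by simp [z p2 x (d1 hx)]
    have s2 : ∑ x ∈ E₂, (a1 + a2) x = c2 := by
      rw [← (mem_piAntidiag.1 p2).1]
      exact sum_congr rfl fun x hx => by simp [z p1 x (d2 hx)]
    simp only [s1, s2, Sigma.mk.injEq, heq_eq_eq, Prod.mk.injEq, true_and]
    constructor <;> funext x <;> split_ifs with h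
    · simp [z p2 x (d1 h)]
    · exact (z p1 x h).symm
    · simp [z p1 x (d2 h)]
    · exact (z p2 x h).symm
  · intro a ha
    obtain ⟨p, q⟩ := mem_filter.1 ha
    funext x
    simp only [Pi.add_apply]
    by_cases a1 : x ∈ E₁
    · simp [a1, d1 a1]
    · by_cases a2 : x ∈ E₂
      · simp [a1, a2]
      · simp [a1, a2, z p x (by simp [a1, a2])]
  · rintro ⟨⟨c1, c2⟩, a1, a2⟩ hp
    simp only [mem_sigma, HasAntidiagonal.mem_antidiagonal, mem_product, mem_filter] at hp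
    obtain ⟨hc, ⟨p1, q1⟩, p2, q2⟩ := hp
    rw [prod_union hE]
    congr 1
    · exact prod_congr rfl fun x hx => by simp [z p2 x (d1 hx)]
    · exact prod_congr rfl fun x hx => by simp [z p1 x (d2 hx)]

theorem rel (hi : i * (1 + X) = 1) (hφ : φ X = X * i) (m : ℕ) (E : Finset ι) :
    ∀ 𝓛 : Finset (Finset ι), (∀ D ∈ 𝓛, D ⊆ E) →
      (∀ D ∈ 𝓛, ∀ D' ∈ 𝓛, D ⊆ D' ∨ D' ⊆ D ∨ Disjoint D D') →
      S m (fun a => (m + 1).choose a) E 𝓛 = (1 + X) ^ (m * E.card) * φ (S m 1 E 𝓛) := by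
  induction E using Finset.strongInduction with
  | H E ih =>
  have key : ∀ 𝓛 : Finset (Finset ι), (E ∈ 𝓛 → E = ∅) → (∀ D ∈ 𝓛, D ⊆ E) →
      (∀ D ∈ 𝓛, ∀ D' ∈ 𝓛, D ⊆ D' ∨ D' ⊆ D ∨ Disjoint D D') →
      S m (fun a => (m + 1).choose a) E 𝓛 = (1 + X) ^ (m * E.card) * φ (S m 1 E 𝓛) := by
    intro 𝓛 hE h1 h2
    have split : ∀ D : Finset ι, D ⊂ E → D.Nonempty → (∀ D' ∈ 𝓛, D' ⊆ D ∨ Disjoint D' D) →
        S m (fun a => (m + 1).choose a) E 𝓛 = (1 + X) ^ (m * E.card) * φ (S m 1 E 𝓛) := by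
      intro D hD hne hsp
      have e1 : E = D ∪ (E \ D) := (union_sdiff_of_subset hD.subset).symm
      have e2 : 𝓛 = {D' ∈ 𝓛 | D' ⊆ D} ∪ {D' ∈ 𝓛 | ¬ D' ⊆ D} :=
        (filter_union_filter_not_eq _ _).symm
      have a1 : ∀ D' ∈ ({D' ∈ 𝓛 | D' ⊆ D} : Finset _), D' ⊆ D := fun D' h => (mem_filter.1 h).2
      have a2 : ∀ D' ∈ ({D' ∈ 𝓛 | ¬ D' ⊆ D} : Finset _), D' ⊆ E \ D := fun D' h =>
        subset_sdiff.2 ⟨h1 D' (mem_filter.1 h).1,
          (hsp D' (mem_filter.1 h).1).resolve_left (mem_filter.1 h).2⟩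
      have c : E.card = D.card + (E \ D).card := by
        rw [card_sdiff_of_subset hD.subset]; have := card_le_card hD.subset; omega
      rw [c, e1, e2, S_mul m _ disjoint_sdiff a1 a2, S_mul m _ disjoint_sdiff a1 a2,
        ih D hD _ a1 (fun A hA B hB => h2 A (mem_filter.1 hA).1 B (mem_filter.1 hB).1),
        ih (E \ D) (sdiff_ssubset hD.subset hne) _ a2
          (fun A hA B hB => h2 A (mem_filter.1 hA).1 B (mem_filter.1 hB).1), ← e1, map_mul,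
        mul_add, pow_add]
      ring
    by_cases h : ∀ D ∈ 𝓛, D = ∅
    · rcases E.eq_empty_or_nonempty with rfl | ⟨x, hx⟩
      · rw [S_empty _ _ _ h, S_empty _ _ _ h]; simp
      · by_cases hx' : E = {x}
        · subst hx'
          rw [S_single _ _ _ _ h, S_single _ _ _ _ h, card_singleton, mul_one]
          have a1 := congrArg φ (mk_one_mul_one_sub_eq_one ℤ)
          rw [map_mul, map_sub, map_one, hφ] at a1
          have a2 : φ (mk 1) = 1 + X := by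
            linear_combination (1 + X) * a1 + (φ (mk 1) * X) * hi
          rw [a2, ← pow_succ]
          ext j
          rw [coeff_pow1, coeff_mk]
        · exact split {x} (Finset.ssubset_iff_subset_ne.2 ⟨by simpa, Ne.symm hx'⟩) (by simp)
            (fun D' hD' => by simp [h D' hD'])
    · push Not at h
      obtain ⟨D0, hD0, hne⟩ := h
      obtain ⟨D, hD, hmax⟩ := exists_max_image 𝓛 card ⟨D0, hD0⟩
      have hne' : D.Nonempty := card_pos.1 (hne.card_pos.trans_le (hmax D0 hD0))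
      refine split D (Finset.ssubset_iff_subset_ne.2 ⟨h1 D hD, ?_⟩) hne' fun D' hD' => ?_
      · rintro rfl
        exact hne'.ne_empty (hE hD)
      · rcases h2 D' hD' D hD with h | h | h
        · exact Or.inl h
        · exact Or.inl (eq_of_subset_of_card_le h (hmax D' hD')).symm.subset
        · exact Or.inr h
  intro 𝓛 h1 h2
  by_cases hE : E ∈ 𝓛
  · rw [← insert_erase hE, S_trunc, S_trunc]
    exact T_rel hi hφ (key _ (by simp) (fun D hD => h1 D (mem_of_mem_erase hD))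
      (fun A hA B hB => h2 A (mem_of_mem_erase hA) B (mem_of_mem_erase hB)))
  · exact key _ (fun h => absurd h hE) h1 h2

theorem step1 (m : ℕ) (E : Finset ι) (𝓛 : Finset (Finset ι)) (hE : E ∈ 𝓛) (h1 : ∀ D ∈ 𝓛, D ⊆ E)
    (h2 : ∀ D ∈ 𝓛, ∀ D' ∈ 𝓛, D ⊆ D' ∨ D' ⊆ D ∨ Disjoint D D') :
    ∑ a ∈ piAntidiag E (m * E.card) with ∀ D ∈ 𝓛, ∑ i ∈ D, a i ≤ m * D.card,
      ∏ i ∈ E, (m + 1).choose (a i)
    = ∑ c ∈ range (m * E.card + 1),
      #{a ∈ piAntidiag E c | ∀ D ∈ 𝓛, ∑ i ∈ D, a i ≤ m * D.card} := by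
  obtain ⟨φ, i, hi, hφ⟩ := exists_phi
  have h := rel hi hφ m E 𝓛 h1 h2
  have e : S m 1 E 𝓛 = T (m * E.card) (S m 1 E 𝓛) := by
    rw [← S_trunc, insert_eq_of_mem hE]
  rw [e] at h
  have := congrArg (coeff (m * E.card)) h
  rw [top_coeff hi hφ] at this
  simp only [S, coeff_mk, Pi.one_apply, prod_const_one, sum_const, nsmul_eq_mul, mul_one] at this
  exact_mod_cast this

end Pool.Agent.H.MP_edc851_co
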