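import Pool.Agent.H.MP_edc851_co.A

namespace Pool.Agent.H.MP_edc851_co

open Finset

theorem hockey (T n m : ℕ) (h0 : n = 0 → m ≤ T) (h1 : T ≤ m + n) (a : ℕ) :
    ∑ v ∈ range (m + 1) with a ≤ v, (T - v).choose n = (T + 1 - a).choose (n + 1) := by
  have key : ∀ k, k ≤ m + 1 → ∑ v ∈ range (m + 1) with m + 1 - k ≤ v, (T - v).choose n
      = (T + 1 - (m + 1 - k)).choose (n + 1) := by
    intro k
    induction k with
    | zero =>
      intro _
      rw [filter_false_of_mem (fun v hv => by have := mem_range.1 hv; omega),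
        Nat.choose_eq_zero_of_lt (by omega), sum_empty]
    | succ k ih =>
      intro hk
      have : ({v ∈ range (m + 1) | m + 1 - (k + 1) ≤ v} : Finset ℕ)
          = insert (m - k) {v ∈ range (m + 1) | m + 1 - k ≤ v} := by
        ext v; simp only [mem_filter, mem_range, mem_insert]; omega
      rw [this, sum_insert (by simp only [mem_filter, mem_range]; omega), ih (by omega)]
      by_cases h : m - k ≤ T
      · rw [show T + 1 - (m + 1 - (k + 1)) = T - (m - k) + 1 by omega, Nat.choose_succ_succ,
          show T + 1 - (m + 1 - k) = T - (m - k) by omega]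
      · rw [show T + 1 - (m + 1 - (k + 1)) = 0 by omega, show T + 1 - (m + 1 - k) = 0 by omega,
          show T - (m - k) = 0 by omega]
        rcases n with _ | n
        · omega
        · simp
  by_cases ha : a ≤ m + 1
  · have := key (m + 1 - a) (by omega)
    rwa [show m + 1 - (m + 1 - a) = a by omega] at this
  · rw [filter_false_of_mem (fun v hv => by have := mem_range.1 hv; omega),
      Nat.choose_eq_zero_of_lt (by omega), sum_empty]

/-- chains with prescribed gaps -/
def K (n m : ℕ) (e : ℕ → ℕ) : Finset (Fin n → Fin (m + 1)) :=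
  {c | (∀ h : 0 < n, e 0 ≤ c ⟨0, h⟩) ∧
    ∀ (j : Fin n) (h : j + 1 < n), c j + e (j + 1) ≤ c ⟨j + 1, h⟩}

/-- shifted gaps -/
def sh (v : ℕ) (e : ℕ → ℕ) : ℕ → ℕ
  | 0 => v + e 1
  | j + 1 => e (j + 1 + 1)

theorem card_K (m n : ℕ) : ∀ e : ℕ → ℕ, (K n m e).card = (m + n - ∑ j ∈ range n, e j).choose n := by
  induction n with
  | zero => intro e; simp [K]
  | succ n ih =>
    intro e
    have h1 : (K (n + 1) m e).card = ∑ v : Fin (m + 1), if e 0 ≤ v then
        (K n m (sh v e)).card else 0 := by
      simp only [K, card_filter]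
      rw [← (Fin.consEquiv (fun _ : Fin (n + 1) => Fin (m + 1))).sum_comp, Fintype.sum_prod_type]
      refine sum_congr rfl fun v _ => ?_
      by_cases hv : e 0 ≤ v
      · rw [if_pos hv]
        refine sum_congr rfl fun c _ => ?_
        congr 1
        apply propext
        simp only [Fin.consEquiv, Equiv.coe_fn_mk, sh]
        constructor
        · rintro ⟨-, h⟩
          exact ⟨fun h0 => h 0 (by simpa using h0), fun j hj => h j.succ (by simpa using hj)⟩
        · rintro ⟨h1, h2⟩
          refine ⟨fun _ => hv, fun j => ?_⟩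
          refine Fin.cases ?_ (fun j => ?_) j
          · intro h; exact h1 (by simpa using h)
          · intro h; exact h2 j (by simpa using h)
      · rw [if_neg hv]
        exact sum_eq_zero fun c _ => if_neg fun h => hv (h.1 (Nat.succ_pos _))
    rw [h1]
    simp only [ih]
    rw [Fin.sum_univ_eq_sum_range (fun v => if e 0 ≤ v then (m + n - ∑ j ∈ range n,
      sh v e j).choose n else 0), ← sum_filter, sum_range_succ']
    have := hockey (m + n - ∑ j ∈ range n, e (j + 1)) n m (by rintro rfl; simp) (by omega) (e 0)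
    rcases n with _ | n
    · simpa using this
    · rw [sum_congr rfl (g := fun v => (m + (n + 1) - ∑ j ∈ range (n + 1), e (j + 1) - v).choose
        (n + 1)), this]
      · by_cases h : ∑ j ∈ range (n + 1), e (j + 1) ≤ m + (n + 1)
        · congr 1; omega
        · rw [Nat.choose_eq_zero_of_lt (by omega), Nat.choose_eq_zero_of_lt (by omega)]
      · intro v _
        rw [sum_range_succ', sum_range_succ']
        simp only [sh, zero_add]
        congr 1
        omega

/-- the ordered grid -/
abbrev L (n m : ℕ) := Fin (m + 1) ×ₗ (Fin n)ᵒᵈ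

variable {n m : ℕ}

/-- grid point -/
def pt (c : Fin (m + 1)) (i : Fin n) : L n m := toLex (c, OrderDual.toDual i)

/-- letter of a grid point -/
def le (p : L n m) : Fin n := OrderDual.ofDual (ofLex p).2

/-- admissible subsets -/
def AA (n m : ℕ) (𝓛 : Finset (Finset (Fin n))) : Finset (Finset (L n m)) :=
  {A | A.card = n ∧ ∀ D ∈ 𝓛, D.card ≤ #{p ∈ A | le p ∈ D}}

theorem cnt (A : Finset (L n m)) (D : Finset (Fin n)) :
    ∑ i ∈ D, #{c | pt c i ∉ A} + #{p ∈ A | le p ∈ D} = (m + 1) * D.card := by
  have h1 : #{p ∈ A | le p ∈ D} = ∑ i ∈ D, #{c | pt c i ∈ A} := by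
    rw [card_eq_sum_card_fiberwise (f := le) (s := {p ∈ A | le p ∈ D}) (t := D)
      (fun p hp => mem_coe.2 (mem_filter.1 (mem_coe.1 hp)).2)]
    refine sum_congr rfl fun i hi => ?_
    refine card_nbij' (fun p => (ofLex p).1) (fun c => pt c i) ?_ ?_ ?_ (fun _ _ => rfl)
    · intro p hp
      simp only [coe_filter, mem_filter, Set.mem_setOf_eq, mem_univ, true_and] at hp ⊢
      obtain ⟨⟨h, -⟩, rfl⟩ := hp
      exact h
    · intro c hc
      simp only [coe_filter, mem_filter, Set.mem_setOf_eq, mem_univ, true_and] at hc ⊢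
      exact ⟨⟨hc, hi⟩, rfl⟩
    · intro p hp
      simp only [coe_filter, mem_filter, Set.mem_setOf_eq] at hp
      obtain ⟨-, rfl⟩ := hp
      rfl
  rw [h1, ← sum_add_distrib, mul_comm, ← smul_eq_mul, ← sum_const]
  refine sum_congr rfl fun i _ => ?_
  rw [add_comm, card_filter_add_card_filter_not]
  simp

theorem card_AA (𝓛 : Finset (Finset (Fin n))) :
    (AA n m 𝓛).card = ∑ a ∈ piAntidiag univ (m * n) with ∀ D ∈ 𝓛, ∑ i ∈ D, a i ≤ m * D.card,
      ∏ i, (m + 1).choose (a i) := by
  have iff : ∀ A : Finset (L n m), A ∈ AA n m 𝓛 ↔ (fun i => #{c | pt c i ∉ A}) ∈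
      ({a ∈ piAntidiag univ (m * n) | ∀ D ∈ 𝓛, ∑ i ∈ D, a i ≤ m * D.card} : Finset _) := by
    intro A
    simp only [AA, mem_filter, mem_univ, true_and, mem_piAntidiag, implies_true, and_true]
    have h0 := cnt A univ
    simp only [mem_univ, filter_true, card_univ, Fintype.card_fin, add_mul, one_mul] at h0
    refine and_congr (by omega) (forall₂_congr fun D _ => ?_)
    have := cnt A D
    rw [add_mul] at this
    omega
  rw [card_eq_sum_card_fiberwise (f := fun A i => #{c | pt c i ∉ A}) (fun A hA => (iff A).1 hA)]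
  refine sum_congr rfl fun a ha => ?_
  have : ∏ i, (m + 1).choose (a i)
      = (Fintype.piFinset fun i => (univ : Finset (Fin (m + 1))).powersetCard (a i)).card := by
    simp
  rw [this]
  refine card_nbij' (fun A i => {c | pt c i ∉ A}) (fun B => univ.filter fun p => (ofLex p).1 ∉ B (le p)) ?_ ?_
    ?_ ?_
  · intro A hA
    simp only [coe_filter, Set.mem_setOf_eq] at hA
    simp [← hA.2]
  · intro B hB
    simp only [mem_coe, Fintype.mem_piFinset, mem_powersetCard_univ] at hB
    have : (fun i => #{c | pt c i ∉ (univ.filter fun p : L n m => (ofLex p).1 ∉ B (le p))}) = a := by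
      funext i
      rw [← hB i]
      congr 1
      ext c
      simp only [mem_filter, mem_univ, true_and, not_not]; rfl
    simp only [coe_filter, Set.mem_setOf_eq]
    exact ⟨(iff _).2 (this ▸ ha), this⟩
  · intro A _
    ext p
    simp only [mem_filter, mem_univ, true_and, not_not]; rfl
  · intro B _
    funext i
    ext c
    simp only [mem_filter, mem_univ, true_and, not_not]; rfl

/-- weak ascent indicator -/
def gap (w : Fin n → Fin n) (j : ℕ) : ℕ :=
  if h : 0 < j ∧ j < n then (if w ⟨j, h.2⟩ < w ⟨j - 1, by omega⟩ then 0 else 1) else 0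

theorem mono_iff (w : Fin n → Fin n) (c : Fin n → Fin (m + 1)) :
    StrictMono (fun j => pt (c j) (w j)) ↔ c ∈ K n m (gap w) := by
  have h1 : ∀ (j : Fin n) (h : j + 1 < n), pt (c j) (w j) < pt (c ⟨j + 1, h⟩) (w ⟨j + 1, h⟩)
      ↔ c j + gap w (j + 1) ≤ c ⟨j + 1, h⟩ := by
    intro j h
    simp only [pt, Prod.Lex.toLex_lt_toLex, OrderDual.toDual_lt_toDual, gap, h, Nat.succ_pos,
      and_self, dif_pos, Nat.add_sub_cancel, Fin.eta, Fin.lt_def, Fin.ext_iff]
    split_ifs <;> omega
  simp only [K, mem_filter, mem_univ, true_and, ← h1]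
  constructor
  · intro h
    exact ⟨fun _ => by simp [gap], fun j hj => h (by simp [Fin.lt_def])⟩
  · rintro ⟨-, h⟩
    rcases n with _ | n
    · intro a; exact a.elim0
    · rw [Fin.strictMono_iff_lt_succ]
      intro j
      exact h j.castSucc (by simp)

theorem card_AA' (𝓛 : Finset (Finset (Fin n))) :
    (AA n m 𝓛).card = ∑ w : Fin n → Fin n with ∀ D ∈ 𝓛, D.card ≤ #{j | w j ∈ D},
      (K n m (gap w)).card := by
  rw [← card_sigma]
  symm
  have key : ∀ (f : Fin n → L n m), Function.Injective f → ∀ D : Finset (Fin n),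
      #{p ∈ univ.image f | le p ∈ D} = #{j | le (f j) ∈ D} := by
    intro f hf D
    rw [filter_image, card_image_of_injective _ hf]
  refine card_bij (fun x _ => univ.image (fun j => pt (x.2 j) (x.1 j))) ?_ ?_ ?_
  · rintro ⟨w, c⟩ hx
    obtain ⟨h1, h2⟩ := mem_sigma.1 hx
    have hi := ((mono_iff w c).2 h2).injective
    simp only [AA, mem_filter, mem_univ, true_and] at h1 ⊢
    refine ⟨by rw [card_image_of_injective _ hi]; simp, fun D hD => ?_⟩
    rw [key _ hi]
    exact h1 D hD
  · rintro ⟨w, c⟩ hx ⟨w', c'⟩ hx' e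
    have h1 := (mono_iff w c).2 (mem_sigma.1 hx).2
    have h2 := (mono_iff w' c').2 (mem_sigma.1 hx').2
    have := (h1.range_inj h2).1 (by
      rw [← Set.image_univ, ← Set.image_univ, ← coe_univ, ← coe_image, ← coe_image]
      exact congrArg _ e)
    have e1 : w = w' := funext fun j => congrArg le (congrFun this j)
    have e2 : c = c' := funext fun j => congrArg (fun p => (ofLex p).1) (congrFun this j)
    subst e1 e2
    rfl
  · intro A hA
    simp only [AA, mem_filter, mem_univ, true_and] at hA
    set f := A.orderEmbOfFin hA.1 with hf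
    have e : univ.image f = A := image_orderEmbOfFin_univ A hA.1
    refine ⟨⟨fun j => le (f j), fun j => (ofLex (f j)).1⟩, mem_sigma.2 ⟨?_, ?_⟩, e⟩
    · simp only [mem_filter, mem_univ, true_and]
      intro D hD
      rw [← key f f.injective, e]
      exact hA.2 D hD
    · exact (mono_iff _ _).1 f.strictMono

end Pool.Agent.H.MP_edc851_co
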